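import Mathlib

/-!
# Scaling and Fubini: from monic denominators to all denominators
-/

set_option autoImplicit false

open MeasureTheory Filter Topology

namespace Pool.Agent.H9.GP

/-- the reordering of the coordinates -/
private theorem mp_reorder {A : Type} [MeasureSpace A] [SigmaFinite (volume : Measure A)] (n : ℕ) :
    MeasurePreserving (fun x : A × (Fin (n + 1) → ℂ) =>
      ((x.2 (Fin.last n), (x.1, fun i : Fin n => x.2 i.castSucc)) : ℂ × (A × (Fin n → ℂ))))
      volume volume := by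
  have h1 : MeasurePreserving (fun x : A × (Fin (n + 1) → ℂ) =>
      ((x.1, (x.2 (Fin.last n), fun i : Fin n => x.2 i.castSucc)) : A × (ℂ × (Fin n → ℂ))))
      volume volume := by
    have h2 := (MeasurePreserving.id (volume : Measure A)).prod
      (volume_preserving_piFinSuccAbove (fun _ : Fin (n + 1) => ℂ) (Fin.last n))
    have e : (fun x : A × (Fin (n + 1) → ℂ) =>
      ((x.1, (x.2 (Fin.last n), fun i : Fin n => x.2 i.castSucc)) : A × (ℂ × (Fin n → ℂ)))) =
      Prod.map id (MeasurableEquiv.piFinSuccAbove (fun _ : Fin (n + 1) => ℂ) (Fin.last n)) := by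
      funext x
      refine Prod.ext rfl ?_
      show (_, _) = _
      rw [Prod.map_snd]
      refine Prod.ext rfl ?_
      funext i
      show x.2 i.castSucc = x.2 ((Fin.last n).succAbove i)
      rw [Fin.succAbove_last]
    rw [e]
    exact h2
  have h3 : MeasurePreserving (fun x : A × (ℂ × (Fin n → ℂ)) =>
      (((x.2.1, (x.1, x.2.2)) : ℂ × (A × (Fin n → ℂ))))) volume volume := by
    have h4 : MeasurePreserving (MeasurableEquiv.prodAssoc.symm : A × (ℂ × (Fin n → ℂ)) ≃ᵐ _)
      volume volume := (measurePreserving_prodAssoc (volume : Measure A) (volume : Measure ℂ)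
        (volume : Measure (Fin n → ℂ))).symm
    have h5 : MeasurePreserving (Prod.map (Prod.swap : A × ℂ → ℂ × A) (id : (Fin n → ℂ) → _))
      volume volume := (Measure.measurePreserving_swap).prod (MeasurePreserving.id _)
    have h6 : MeasurePreserving (MeasurableEquiv.prodAssoc : (ℂ × A) × (Fin n → ℂ) ≃ᵐ _)
      volume volume := measurePreserving_prodAssoc (volume : Measure ℂ) (volume : Measure A)
        (volume : Measure (Fin n → ℂ))
    exact h6.comp (h5.comp h4)
  exact h3.comp h1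

private theorem qmp_smul {k n : ℕ} {t : ℂ} (ht : t ≠ 0) :
    Measure.QuasiMeasurePreserving (fun q : (Fin k → ℂ) × (Fin n → ℂ) => t • q) volume volume := by
  obtain ⟨L, hL⟩ : ∃ L : ((Fin k → ℂ) × (Fin n → ℂ)) ≃ₗ[ℝ] ((Fin k → ℂ) × (Fin n → ℂ)),
      ∀ q, L q = t • q :=
    ⟨(LinearEquiv.smulOfNeZero ℂ ((Fin k → ℂ) × (Fin n → ℂ)) t ht).restrictScalars ℝ, fun q => rfl⟩
  have : (volume : Measure ((Fin k → ℂ) × (Fin n → ℂ))).IsAddHaarMeasure :=
    Measure.prod.instIsAddHaarMeasure (volume : Measure (Fin k → ℂ)) (volume : Measure (Fin n → ℂ))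
  have h := Measure.LinearMap.quasiMeasurePreserving
    (volume : Measure ((Fin k → ℂ) × (Fin n → ℂ))) L.toLinearMap (LinearEquiv.isUnit_det' L).ne_zero
  have e : (fun q : (Fin k → ℂ) × (Fin n → ℂ) => t • q) = ⇑(L.toLinearMap) := by
    funext q
    exact (hL q).symm
  rw [e]
  exact h

theorem null_scale {k n : ℕ} {Z : Set ((Fin k → ℂ) × (Fin n → ℂ))} (hZ : volume Z = 0) :
    volume {x : (Fin k → ℂ) × (Fin (n + 1) → ℂ) | x.2 (Fin.last n) ≠ 0 ∧
      ((x.2 (Fin.last n))⁻¹ • x.1, fun i : Fin n => (x.2 (Fin.last n))⁻¹ * x.2 i.castSucc) ∈ Z} = 0 := by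
  obtain ⟨Z', hZ'⟩ : ∃ Z', Z' = toMeasurable volume Z := ⟨_, rfl⟩
  have hm : MeasurableSet Z' := by rw [hZ']; exact measurableSet_toMeasurable _ _
  have h0 : volume Z' = 0 := by rw [hZ', measure_toMeasurable]; exact hZ
  have hsub : Z ⊆ Z' := by rw [hZ']; exact subset_toMeasurable _ _
  obtain ⟨S, hS⟩ : ∃ S : Set (ℂ × ((Fin k → ℂ) × (Fin n → ℂ))), S = {p | p.1 ≠ 0 ∧ p.1⁻¹ • p.2 ∈ Z'} :=
    ⟨_, rfl⟩
  have hSm : MeasurableSet S := by
    rw [hS]
    refine MeasurableSet.inter ?_ ?_
    · exact (measurableSet_singleton (0 : ℂ)).compl.preimage measurable_fst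
    · exact hm.preimage (measurable_fst.inv.smul measurable_snd)
  have hS0 : volume S = 0 := by
    have h1 : (volume : Measure (ℂ × ((Fin k → ℂ) × (Fin n → ℂ)))) =
        (volume : Measure ℂ).prod volume := rfl
    rw [h1, Measure.measure_prod_null hSm]
    refine Eventually.of_forall fun t => ?_
    by_cases ht : t = 0
    · have e : (Prod.mk t ⁻¹' S) = ∅ := by
        ext q
        rw [hS]
        simp [ht]
      show volume (Prod.mk t ⁻¹' S) = 0
      rw [e, measure_empty]
    · have h2 := (qmp_smul (k := k) (n := n) (inv_ne_zero ht)).preimage_null h0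
      refine measure_mono_null ?_ h2
      intro q hq
      have hq' : (t, q) ∈ S := hq
      rw [hS] at hq'
      exact hq'.2
  have h3 := (mp_reorder (A := Fin k → ℂ) n).quasiMeasurePreserving.preimage_null hS0
  refine measure_mono_null ?_ h3
  intro x hx
  show _ ∈ S
  rw [hS]
  exact ⟨hx.1, hsub hx.2⟩

theorem null_last (k n : ℕ) :
    volume {x : (Fin k → ℂ) × (Fin (n + 1) → ℂ) | x.2 (Fin.last n) = 0} = 0 := by
  have h1 : volume ({0} ×ˢ Set.univ : Set (ℂ × ((Fin k → ℂ) × (Fin n → ℂ)))) = 0 := by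
    have h1 : (volume : Measure (ℂ × ((Fin k → ℂ) × (Fin n → ℂ)))) =
        (volume : Measure ℂ).prod volume := rfl
    rw [h1, Measure.prod_prod, measure_singleton, zero_mul]
  have h3 := (mp_reorder (A := Fin k → ℂ) n).quasiMeasurePreserving.preimage_null h1
  refine measure_mono_null ?_ h3
  intro x hx
  exact ⟨hx, Set.mem_univ _⟩

end Pool.Agent.H9.GP
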