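import Pool.Agent.H9.GP.Inf
import Pool.Agent.H9.GP.Fub

/-!
# Almost every map with a superattracting fixed point at infinity
-/

set_option autoImplicit false

open MeasureTheory Metric Set Filter Topology Polynomial

namespace Pool.Agent.H9.GP

open Pool.Agent.H44.Fatou Pool.Agent.H32.BT Pool.Agent.H79.Eul Pool.Agent.H79.Par Pool.Agent.H61.TT
open Pool.Agent.H35.EX Pool.Agent.H44.RR Pool.Agent.H79.MZ Pool.Agent.H79.GP

theorem pol_coeff {d : ℕ} (v : Fin (d + 1) → ℂ) (i : ℕ) :
    (pol v).coeff i = if h : i < d + 1 then v ⟨i, h⟩ else 0 := by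
  unfold pol
  rw [finset_sum_coeff]
  by_cases h : i < d + 1
  · rw [dif_pos h, Finset.sum_eq_single ⟨i, h⟩]
    · rw [coeff_C_mul, coeff_X_pow]
      simp
    · intro b _ hb
      rw [coeff_C_mul, coeff_X_pow, if_neg, mul_zero]
      intro h1
      exact hb (Fin.ext h1.symm)
    · intro h1
      exact absurd (Finset.mem_univ _) h1
  · rw [dif_neg h]
    refine Finset.sum_eq_zero fun b _ => ?_
    rw [coeff_C_mul, coeff_X_pow, if_neg, mul_zero]
    have := b.2
    omega

theorem family_null {d m : ℕ} (hm : 2 ≤ m) (hmd : m ≤ d) :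
    volume {x : (Fin (d + 1) → ℂ) × (Fin (d - m + 1) → ℂ) |
      IsCoprime (pol x.1) (pol x.2) ∧ max (pol x.1).natDegree (pol x.2).natDegree = d ∧
      ∃ c, IsCrit (rat (pol x.1) (pol x.2)) c ∧
        Pool.Agent.H44.RG.TG (rat (pol x.1) (pol x.2)) (rat (pol x.1) (pol x.2) c)} = 0 := by
  have h1 := null_scale (fam_null hm hmd)
  have h2 := null_last (d + 1) (d - m)
  refine measure_mono_null ?_ (measure_union_null h2 h1)
  rintro x ⟨hcop, hdeg, c, hc, hT⟩
  by_cases hl : x.2 (Fin.last (d - m)) = 0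
  · exact Or.inl hl
  right
  obtain ⟨t, ht⟩ : ∃ t, t = (x.2 (Fin.last (d - m)))⁻¹ := ⟨_, rfl⟩
  have ht0 : t ≠ 0 := by rw [ht]; exact inv_ne_zero hl
  refine ⟨hl, ?_⟩
  rw [← ht]
  obtain ⟨x', hx'⟩ : ∃ x' : (Fin (d + 1) → ℂ) × (Fin (d - m) → ℂ),
      x' = (t • x.1, fun i : Fin (d - m) => t * x.2 i.castSucc) := ⟨_, rfl⟩
  rw [← hx']
  have e1 : pol (FA d m x').1 = pol x.1 * C t := by
    ext i
    rw [coeff_mul_C, pol_coeff, pol_coeff, hx']
    by_cases h : i < d + 1
    · rw [dif_pos h, dif_pos h]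
      show t * x.1 _ = _
      ring
    · rw [dif_neg h, dif_neg h, zero_mul]
  have e2 : pol (FA d m x').2 = pol x.2 * C t := by
    ext i
    rw [coeff_mul_C, pol_coeff, pol_coeff, hx']
    by_cases h : i < d + 1
    · rw [dif_pos h]
      show (if h : i < d - m then _ else if i = d - m then (1 : ℂ) else 0) = _
      by_cases h3 : i < d - m
      · rw [dif_pos h3, dif_pos (by omega)]
        show t * x.2 _ = _
        rw [mul_comm]
        rfl
      · rw [dif_neg h3]
        by_cases h4 : i = d - m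
        · rw [if_pos h4, dif_pos (by omega)]
          have e3 : (⟨i, by omega⟩ : Fin (d - m + 1)) = Fin.last (d - m) := Fin.ext h4
          rw [e3, ht, mul_inv_cancel₀ hl]
        · rw [if_neg h4, dif_neg (by omega), zero_mul]
    · rw [dif_neg h, dif_neg (by omega), zero_mul]
  have e4 : Rf (FA d m x') = rat (pol x.1) (pol x.2) := by
    unfold Rf
    rw [e1, e2, rat_mul_const ht0]
  have hun : IsUnit (C t : Polynomial ℂ) := isUnit_C.2 (isUnit_iff_ne_zero.2 ht0)
  have hcop' : IsCoprime (pol (FA d m x').1) (pol (FA d m x').2) := by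
    rw [e1, e2]
    exact (isCoprime_mul_unit_right hun _ _).2 hcop
  have hd2 : (pol x.2).natDegree ≤ d - m := by
    rw [natDegree_le_iff_coeff_eq_zero]
    intro i hi
    rw [pol_coeff, dif_neg (by omega)]
  have hd1 : (pol x.1).natDegree = d := by omega
  have hd1' : (pol (FA d m x').1).natDegree = d := by
    rw [e1, natDegree_mul_C ht0, hd1]
  have hd2' : (pol (FA d m x').2).natDegree = d - m := by
    rw [e2, natDegree_mul_C ht0]
    refine le_antisymm hd2 (le_natDegree_of_ne_zero ?_)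
    rw [pol_coeff, dif_pos (by omega)]
    exact hl
  have hF : Fam d m (FA d m x') := ⟨hm, hmd, hcop', hd1', hd2'⟩
  refine ⟨hcop', hd1', ?_⟩
  rw [e4]
  rw [← e4] at hc hT
  induction c using OnePoint.rec with
  | infty =>
    exfalso
    rw [rf_inf hF] at hT
    exact not_summ_inf hF hT.1
  | coe c =>
    refine ⟨c, ?_, ?_⟩
    · have hW := crit_coe hc
      rw [← wv_cf (pol_deg _) (pol_deg _), cf_pol, cf_pol] at hW
      exact hW
    · rw [← e4]
      exact hT

end Pool.Agent.H9.GP
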