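import Mathlib
import Pool.Agent.H44.RG.GMN
import Pool.Agent.H79.MZ.HLD
import Pool.Agent.H79.MZ.HLC
import Pool.Agent.H32.RB.Main
import Pool.Agent.H9.GP.All

/-!
# For almost every rational map every Collet-Eckmann critical point has a dense orbit, and there is
none for almost every polynomial
-/

set_option autoImplicit false

namespace Pool.Agent.H9.GP.Final

open Polynomial Filter Topology MeasureTheory

/-- `f` is the rational map `P/Q` on the sphere. -/
def IsMap (f : OnePoint ℂ → OnePoint ℂ) (P Q : Polynomial ℂ) : Prop :=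
  Continuous f ∧
    ∀ z : ℂ, Q.eval z ≠ 0 → f (OnePoint.some z) = OnePoint.some (P.eval z / Q.eval z)

/-- `c` is a critical point of `f`. -/
def IsCritical (f : OnePoint ℂ → OnePoint ℂ) (c : OnePoint ℂ) : Prop :=
  ¬ ∃ U ∈ nhds c, Set.InjOn f U

/-- The chordal distance of the Riemann sphere. -/
noncomputable def chordal : OnePoint ℂ → OnePoint ℂ → ℝ
  | OnePoint.some z, OnePoint.some w => ‖z - w‖ / (√(1 + ‖z‖ ^ 2) * √(1 + ‖w‖ ^ 2))
  | OnePoint.some z, OnePoint.infty => 1 / √(1 + ‖z‖ ^ 2)
  | OnePoint.infty, OnePoint.some w => 1 / √(1 + ‖w‖ ^ 2)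
  | OnePoint.infty, OnePoint.infty => 0

/-- The point `x` is summable: the derivatives of `f^n` at `x` in the chordal metric are bounded
below by numbers `a n > 0` with `∑ 1 / a n` finite (that is, they are not zero and the sum of their
inverses is finite; the local expansion rate is the modulus of the derivative). -/
def IsSummable (f : OnePoint ℂ → OnePoint ℂ) (x : OnePoint ℂ) : Prop :=
  ∃ a : ℕ → ℝ, (∀ n, 0 < a n) ∧ Summable (fun n => 1 / a n) ∧
    ∀ n, ∀ᶠ y in 𝓝 x, a n * chordal x y ≤ chordal (f^[n] x) (f^[n] y)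

/-- The point `x` is conical: for some `δ > 0` and infinitely many `n` the iterate `f^n` maps an open
set containing `x` bijectively onto the disc of radius `δ` around `f^n(x)`. -/
def IsConical (f : OnePoint ℂ → OnePoint ℂ) (x : OnePoint ℂ) : Prop :=
  ∃ δ : ℝ, 0 < δ ∧ ∃ᶠ n : ℕ in atTop, ∃ U : Set (OnePoint ℂ), IsOpen U ∧ x ∈ U ∧
    Set.BijOn f^[n] U {y | chordal (f^[n] x) y < δ}

/-- The upper Lyapunov exponent of `f` at `x` is positive: for some `q > 1` the iterate `f^n` locally
expands the chordal distance from `x` by the factor `q^n` for infinitely many `n`. -/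
def HasPositiveUpperExponent (f : OnePoint ℂ → OnePoint ℂ) (x : OnePoint ℂ) : Prop :=
  ∃ q : ℝ, 1 < q ∧ ∃ᶠ n : ℕ in atTop,
    ∀ᶠ y in 𝓝 x, q ^ n * chordal x y ≤ chordal (f^[n] x) (f^[n] y)

/-- The Collet-Eckmann condition at `x`: `f^n` expands the chordal distance from `x` at least
exponentially. -/
def ColletEckmannAt (f : OnePoint ℂ → OnePoint ℂ) (x : OnePoint ℂ) : Prop :=
  ∃ C q : ℝ, 0 < C ∧ 1 < q ∧
    ∀ n : ℕ, ∀ᶠ y in 𝓝 x, C * q ^ n * chordal x y ≤ chordal (f^[n] x) (f^[n] y)

/-- The polynomial of degree at most `d` with coefficients `v`. -/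
noncomputable def poly {d : ℕ} (v : Fin (d + 1) → ℂ) : Polynomial ℂ := ∑ i, C (v i) * X ^ (i : ℕ)

/-- The rational maps `P/Q` of degree exactly `d` with `deg Q ≤ d - m`, given by the coefficients of a
pair of coprime polynomials, which have a property of maps of the sphere. For `m = 0` these are all
rational maps of degree `d`, for `m ≥ 1` those which fix infinity with local degree at least `m`, for
`m = d` the polynomials (up to the constant `Q`). -/
def MapsWith (d m : ℕ) (T : (OnePoint ℂ → OnePoint ℂ) → Prop) :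
    Set ((Fin (d + 1) → ℂ) × (Fin (d - m + 1) → ℂ)) :=
  {v | IsCoprime (poly v.1) (poly v.2) ∧ max (poly v.1).natDegree (poly v.2).natDegree = d ∧
    ∃ f : OnePoint ℂ → OnePoint ℂ, IsMap f (poly v.1) (poly v.2) ∧ T f}

theorem chord_eq (x y : OnePoint ℂ) : chordal x y = Pool.Agent.H35.EX.chord x y := by
  induction x using OnePoint.rec with
  | infty =>
    induction y using OnePoint.rec with
    | infty => rfl
    | coe y => rfl
  | coe x =>
    induction y using OnePoint.rec with
    | infty => rfl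
    | coe y => rfl

theorem maps_with {d : ℕ} (hd : 2 ≤ d) {T : (OnePoint ℂ → OnePoint ℂ) → Prop}
    {v : Pool.Agent.H79.Eul.E d} (h : v ∈ MapsWith d 0 T) :
    IsCoprime (Pool.Agent.H79.Eul.pol v.1) (Pool.Agent.H79.Eul.pol v.2) ∧
      max (Pool.Agent.H79.Eul.pol v.1).natDegree (Pool.Agent.H79.Eul.pol v.2).natDegree = d ∧
      T (Pool.Agent.H79.Par.Rf v) := by
  obtain ⟨h1, h2, f, hf, hT⟩ := h
  have h1' : IsCoprime (Pool.Agent.H79.Eul.pol v.1) (Pool.Agent.H79.Eul.pol v.2) := h1
  have h2' : max (Pool.Agent.H79.Eul.pol v.1).natDegree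
      (Pool.Agent.H79.Eul.pol v.2).natDegree = d := h2
  have hB0 : Pool.Agent.H79.Eul.pol v.2 ≠ 0 := Pool.Agent.H32.BT.den_ne_zero h1' (by omega)
  have hfr : f = Pool.Agent.H79.Par.Rf v := Pool.Agent.H32.RB.ext_eq h1' hB0 hf
  rw [hfr] at hT
  exact ⟨h1', h2', hT⟩

theorem upper_of_ce {f : OnePoint ℂ → OnePoint ℂ} {x : OnePoint ℂ} (h : ColletEckmannAt f x) :
    IsSummable f x ∧ HasPositiveUpperExponent f x := by
  obtain ⟨C, q, hC, hq, hev⟩ := h
  have hq0 : 0 < q := by linarith
  refine ⟨⟨fun n => C * q ^ n, fun n => by positivity, ?_, hev⟩, (1 + q) / 2, by linarith, ?_⟩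
  · have h1 : Summable fun n : ℕ => (1 / q) ^ n :=
      summable_geometric_of_lt_one (by positivity) (by rw [div_lt_one hq0]; exact hq)
    have h2 := h1.mul_left (1 / C)
    refine h2.congr fun n => ?_
    rw [div_pow, one_pow, div_mul_div_comm, one_mul]
  · have h0 : ∀ᶠ n : ℕ in atTop, ((1 + q) / 2) ^ n ≤ C * q ^ n :=
      Pool.Agent.H44.RG.ev_pow hC (by linarith) (by linarith)
    refine Eventually.frequently (h0.mono fun n hn => ?_)
    filter_upwards [hev n] with y hy
    refine (mul_le_mul_of_nonneg_right hn ?_).trans hy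
    rw [chord_eq]
    exact Pool.Agent.H44.RR.chord_nn _ _

/-- the dynamical statement -/
theorem hole_tg {d : ℕ} (hd : 2 ≤ d) : Pool.Agent.H44.RG.HoleT d Pool.Agent.H44.RG.TG := by
  intro v0 h c hw hT hX V hV hVn hj
  obtain ⟨hS, hC | ⟨q, hq, hU⟩⟩ := hT
  · exact Pool.Agent.H79.MZ.hole_d hd v0 h c hw hS hC hX V hV hVn hj
  · exact Pool.Agent.H79.MZ.hole_ul hd h hw hS hq hU hX hV hVn

/-- the condition on the critical value -/
def Good (f : OnePoint ℂ → OnePoint ℂ) (x : OnePoint ℂ) : Prop :=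
  ColletEckmannAt f x ∨ IsSummable f x ∧ (IsConical f x ∨ HasPositiveUpperExponent f x)

theorem tg_of {f : OnePoint ℂ → OnePoint ℂ} {x : OnePoint ℂ} (hT : Good f x) :
    Pool.Agent.H44.RG.TG f x := by
  have hT' : IsSummable f x ∧ (IsConical f x ∨ HasPositiveUpperExponent f x) := by
    rcases hT with hCE | hT
    · exact ⟨(upper_of_ce hCE).1, Or.inr (upper_of_ce hCE).2⟩
    · exact hT
  obtain ⟨⟨a, ha, hs, hn⟩, hCU⟩ := hT'
  refine ⟨⟨a, ha, hs, fun n => ?_⟩, ?_⟩
  · filter_upwards [hn n] with y hy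
    rw [← chord_eq, ← chord_eq]
    exact hy
  · rcases hCU with ⟨δ, hδ, hfr⟩ | ⟨q, hq, hfr⟩
    · left
      refine ⟨δ, hδ, hfr.mono fun n hU => ?_⟩
      obtain ⟨U, hU1, hU2, hU3⟩ := hU
      refine ⟨U, hU1, hU2, ?_⟩
      have h3 : {y | Pool.Agent.H35.EX.chord (f^[n] x) y < δ} = {y | chordal (f^[n] x) y < δ} := by
        ext y
        show _ < δ ↔ _ < δ
        rw [chord_eq]
      rw [h3]
      exact hU3
    · right
      refine ⟨q, hq, hfr.mono fun n hn => ?_⟩
      filter_upwards [hn] with y hy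
      rw [← chord_eq, ← chord_eq]
      exact hy

theorem zero_case {d : ℕ} (hd : 2 ≤ d) :
    volume (MapsWith d 0 fun f => ∃ c : OnePoint ℂ, IsCritical f c ∧ Good f (f c) ∧
      ¬ Dense (Set.range fun n : ℕ => f^[n] c)) = 0 := by
  refine measure_mono_null ?_ (Pool.Agent.H44.RG.gg_main (d := d) hd (hole_tg hd))
  intro v hv
  obtain ⟨h1, h2, c, hc, hT, hden⟩ := maps_with hd hv
  exact ⟨h1, h2, c, hc, tg_of hT, hden⟩

theorem family_case {d m : ℕ} (hm : 2 ≤ m) (hmd : m ≤ d) :
    volume (MapsWith d m fun f => ∃ c : OnePoint ℂ, IsCritical f c ∧ Good f (f c)) = 0 := by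
  refine measure_mono_null ?_ (Pool.Agent.H9.GP.family_null hm hmd)
  rintro v ⟨h1, h2, f, hf, c, hc, hT⟩
  have h1' : IsCoprime (Pool.Agent.H79.Eul.pol v.1) (Pool.Agent.H79.Eul.pol v.2) := h1
  have h2' : max (Pool.Agent.H79.Eul.pol v.1).natDegree
      (Pool.Agent.H79.Eul.pol v.2).natDegree = d := h2
  have hB0 : Pool.Agent.H79.Eul.pol v.2 ≠ 0 := Pool.Agent.H32.BT.den_ne_zero h1' (by omega)
  have hfr : f = Pool.Agent.H44.Fatou.rat (Pool.Agent.H79.Eul.pol v.1)
      (Pool.Agent.H79.Eul.pol v.2) := Pool.Agent.H32.RB.ext_eq h1' hB0 hf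
  rw [hfr] at hc hT
  exact ⟨h1', h2', c, hc, tg_of hT⟩

/-- Let `2 ≤ d`, `m ≤ d`, `m ≠ 1`. Let `MapsWith d m` be the space of the rational maps `P/Q` of degree
`d` with `deg Q ≤ d - m`: for `m = 0` all rational maps of degree `d`, for `m ≥ 2` those which have a
superattracting fixed point at infinity of local degree at least `m`, for `m = d` the polynomials. For
Lebesgue almost every `f` in it the following holds for every critical point `c` of `f` whose value
`f(c)` is Collet-Eckmann, or summable and conical, or summable and of positive upper Lyapunov exponent: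
`m = 0` and the orbit of `c` is dense in the sphere.

So for almost every polynomial no critical value is Collet-Eckmann, and for almost every rational map
the only critical points with a Collet-Eckmann value are those with a dense orbit. Nothing is assumed
about the cycles, the Julia set, the other critical points and the recurrence of the critical orbits. -/
theorem result (d m : ℕ) (hd : 2 ≤ d) (hm : m ≤ d) (hm1 : m ≠ 1) :
    volume (MapsWith d m fun f => ∃ c : OnePoint ℂ, IsCritical f c ∧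
      (ColletEckmannAt f (f c) ∨
        IsSummable f (f c) ∧ (IsConical f (f c) ∨ HasPositiveUpperExponent f (f c))) ∧
      ¬ (m = 0 ∧ Dense (Set.range fun n : ℕ => f^[n] c))) = 0 := by
  rcases Nat.eq_zero_or_pos m with h0 | h0
  · subst h0
    refine measure_mono_null ?_ (zero_case hd)
    rintro v ⟨h1, h2, f, hf, c, hc, hT, hden⟩
    exact ⟨h1, h2, f, hf, c, hc, hT, fun h => hden ⟨rfl, h⟩⟩
  · refine measure_mono_null ?_ (family_case (by omega : 2 ≤ m) hm)
    rintro v ⟨h1, h2, f, hf, c, hc, hT, -⟩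
    exact ⟨h1, h2, f, hf, c, hc, hT⟩


end Pool.Agent.H9.GP.Final
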