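import Pool.Agent.H79.GP.GMA

/-!
# Infinity is not a summable critical point in the family
-/

set_option autoImplicit false

open MeasureTheory Metric Set Filter Topology Polynomial

namespace Pool.Agent.H9.GP

open Pool.Agent.H44.Fatou Pool.Agent.H32.BT Pool.Agent.H79.Eul Pool.Agent.H79.Par Pool.Agent.H61.TT
open Pool.Agent.H35.EX Pool.Agent.H44.RR Pool.Agent.H79.MZ Pool.Agent.H79.GP

theorem rf_inf {d m : ℕ} {v0 : E d} (hF : Fam d m v0) :
    Rf v0 OnePoint.infty = OnePoint.infty := by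
  obtain ⟨F, ρ, hρ, -, h1, h0, -⟩ := grd_loc hF
  have h := h1 0 (mem_ball_self hρ)
  rw [h0] at h
  have e : pt 1 0 = (OnePoint.infty : OnePoint ℂ) := by unfold pt; rw [if_pos rfl]
  rwa [e] at h

theorem not_summ_inf {d m : ℕ} {v0 : E d} (hF : Fam d m v0) :
    ¬ Pool.Agent.H44.RG.Summ (Rf v0) OnePoint.infty := by
  rintro ⟨a, ha, hs, hev⟩
  obtain ⟨F, ρ, hρ, hρ1, h1, h0, h2⟩ := grd_loc hF
  have e : pt 1 0 = (OnePoint.infty : OnePoint ℂ) := by unfold pt; rw [if_pos rfl]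
  have hle : ∀ n, a n ≤ 2 := by
    intro n
    obtain ⟨h3, h4⟩ := grd_iter h1 h0 h2 n
    have hc : Tendsto (fun u : ℂ => pt 1 u) (𝓝 0) (𝓝 (OnePoint.infty : OnePoint ℂ)) := by
      rw [← e]
      exact tendsto_pt tendsto_const_nhds tendsto_id (Or.inl one_ne_zero)
    have h5 := hc.eventually (hev n)
    have h6 : ∀ᶠ u : ℂ in 𝓝[≠] 0, a n * chord OnePoint.infty (pt 1 u) ≤
        chord ((Rf v0)^[n] OnePoint.infty) ((Rf v0)^[n] (pt 1 u)) := h5.filter_mono nhdsWithin_le_nhds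
    have h7 : ∀ᶠ u : ℂ in 𝓝[≠] 0, u ∈ ball (0 : ℂ) ρ :=
      (ball_mem_nhds 0 hρ) |> fun h => nhdsWithin_le_nhds h
    have h8 : ∀ᶠ u : ℂ in 𝓝[≠] 0, u ≠ 0 := self_mem_nhdsWithin
    obtain ⟨u, hu1, hu2, hu3⟩ := (h6.and (h7.and h8)).exists
    have hu4 : 0 < ‖u‖ := norm_pos_iff.2 hu3
    have hb0 : (0 : ℂ) ∈ ball (0 : ℂ) ρ := mem_ball_self hρ
    rw [← e, (h3 0 hb0).2, (h3 u hu2).2] at hu1
    have h9 := grd_le (F^[n] 0) (F^[n] u)
    have h10 := h4 0 hb0 u hu2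
    have hun : ‖u‖ ≤ 1 := by
      rw [mem_ball_zero_iff] at hu2
      linarith
    have h11 := grd_ge (u := 0) (v := u) (by simp) hun
    have h12 : ((1 : ℝ) / 4) ^ n ≤ 1 := pow_le_one₀ (by norm_num) (by norm_num)
    rw [zero_sub, norm_neg] at h10 h11
    have h13 : (1 / 4 : ℝ) ^ n * ‖u‖ ≤ ‖u‖ := mul_le_of_le_one_left hu4.le h12
    have h14 : a n * (‖u‖ / 2) ≤ a n * chord (pt 1 0) (pt 1 u) :=
      mul_le_mul_of_nonneg_left (by linarith) (ha n).le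
    have h15 : a n * (‖u‖ / 2) ≤ ‖u‖ := by linarith
    by_contra hcon
    push Not at hcon
    nlinarith
  have h3 := hs.tendsto_atTop_zero
  have h4 : ∀ᶠ n in atTop, 1 / a n < 1 / 2 := h3.eventually (gt_mem_nhds (by norm_num))
  obtain ⟨n, hn⟩ := h4.exists
  have h5 := hle n
  have h6 := ha n
  rw [div_lt_div_iff₀ h6 (by norm_num)] at hn
  linarith

end Pool.Agent.H9.GP
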